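import Pool.Agent.L7h38.UC.Stm2

/-!
# UC, part EXS: the matrix of one ring is stochastic, so a stationary distribution exists
-/

set_option autoImplicit false

namespace Pool.Agent.L7h56.UC

open Finset Pool.Agent.L7h38.UC

/-- a stochastic matrix on a finite set has a stationary distribution -/
theorem stat {S : Type*} [Fintype S] [DecidableEq S] [Nonempty S] (P : Matrix S S ℝ)
    (h0 : ∀ A B, 0 ≤ P A B) (h1 : ∀ A, ∑ B, P A B = 1) :
    ∃ π : S → ℝ, (∀ A, 0 ≤ π A) ∧ ∑ A, π A = 1 ∧ ∀ B, ∑ A, π A * P A B = π B := by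
  have hdet : (P - 1).det = 0 := by
    apply Matrix.exists_mulVec_eq_zero_iff.1
    refine ⟨fun _ => 1, ?_, ?_⟩
    · intro h
      have := congrFun h (Classical.arbitrary S)
      simp at this
    · rw [Matrix.sub_mulVec, Matrix.one_mulVec]
      funext A
      simp [Matrix.mulVec, dotProduct, h1 A]
  obtain ⟨v, hv, hv2⟩ := Matrix.exists_vecMul_eq_zero_iff.2 hdet
  rw [Matrix.vecMul_sub, Matrix.vecMul_one, sub_eq_zero] at hv2
  have hv3 : ∀ B, ∑ A, v A * P A B = v B := fun B => congrFun hv2 B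
  have hle : ∀ B, |v B| ≤ ∑ A, |v A| * P A B := by
    intro B
    rw [← hv3 B]
    refine (abs_sum_le_sum_abs _ _).trans_eq ?_
    apply sum_congr rfl
    intro A _
    rw [abs_mul, abs_of_nonneg (h0 A B)]
  have hsum : ∑ B, ∑ A, |v A| * P A B = ∑ B, |v B| := by
    rw [sum_comm]
    apply sum_congr rfl
    intro A _
    rw [← mul_sum, h1 A, mul_one]
  have heq : ∀ B, ∑ A, |v A| * P A B = |v B| := by
    have hz : ∑ B, (∑ A, |v A| * P A B - |v B|) = 0 := by
      rw [sum_sub_distrib, hsum, sub_self]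
    rw [sum_eq_zero_iff_of_nonneg (fun B _ => sub_nonneg.2 (hle B))] at hz
    intro B
    have := hz B (mem_univ B)
    linarith
  have hpos : 0 < ∑ A, |v A| := by
    obtain ⟨A, hA⟩ : ∃ A, v A ≠ 0 := by
      by_contra h
      exact hv (funext fun A => by
        by_contra h2
        exact h ⟨A, h2⟩)
    exact sum_pos' (fun A _ => abs_nonneg _) ⟨A, mem_univ A, abs_pos.2 hA⟩
  refine ⟨fun A => |v A| / ∑ A, |v A|, fun A => by positivity, ?_, ?_⟩
  · rw [← sum_div, div_self hpos.ne']
  · intro B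
    show ∑ A, |v A| / (∑ A, |v A|) * P A B = |v B| / ∑ A, |v A|
    rw [← heq B, sum_div]
    apply sum_congr rfl
    intro A _
    ring

variable {d n : ℕ}

theorem number_le {A : St d n} {i : Fin d} (S : Finset (Balls A i)) (j : Fin d) :
    number S j ≤ (A.1 i j : ℕ) := by
  unfold number
  have h : ({x ∈ S | x.1 = j} : Finset (Balls A i)) ⊆
      ({j} : Finset (Fin d)).sigma (fun j => (univ : Finset (Fin (A.1 i j : ℕ)))) := by
    intro x hx
    simp only [mem_filter] at hx
    simp [hx.2]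
  refine (card_le_card h).trans_eq ?_
  rw [card_sigma, sum_singleton, card_univ, Fintype.card_fin]

theorem number_sum {A : St d n} {i : Fin d} (S : Finset (Balls A i)) :
    ∑ j, number S j = S.card := by
  unfold number
  exact (card_eq_sum_card_fiberwise (f := fun x : Balls A i => x.1) (t := univ)
    (fun x _ => mem_coe.2 (mem_univ _))).symm

theorem mem_choices {k : ℕ} {A : St d n} {S : ∀ i : Fin d, Finset (Balls A i)}
    (hS : S ∈ choices k A) (i : Fin d) : (S i).card = k := by
  unfold choices at hS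
  rw [Fintype.mem_piFinset] at hS
  exact (mem_powersetCard.1 (hS i)).2

theorem choices_pos (k : ℕ) (hk : k ≤ n) (A : St d n) : (choices k A).Nonempty := by
  unfold choices
  rw [Fintype.piFinset_nonempty]
  intro i
  rw [powersetCard_nonempty, card_univ, Fintype.card_sigma]
  simp only [Fintype.card_fin]
  rw [A.2.1 i]
  exact hk

/-- the new numbers -/
def newN (A : St d n) (σ : Equiv.Perm (Fin d)) (S : ∀ i : Fin d, Finset (Balls A i))
    (i j : Fin d) : ℕ :=
  (A.1 i j : ℕ) - number (S i) j + number (S (σ⁻¹ i)) j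

theorem row_newN {k : ℕ} (A : St d n) (σ : Equiv.Perm (Fin d))
    (S : ∀ i : Fin d, Finset (Balls A i)) (hS : S ∈ choices k A) (i : Fin d) :
    ∑ j, newN A σ S i j = n := by
  unfold newN
  rw [sum_add_distrib, number_sum, mem_choices hS]
  have h : ∑ j, ((A.1 i j : ℕ) - number (S i) j) + ∑ j, number (S i) j = ∑ j, (A.1 i j : ℕ) := by
    rw [← sum_add_distrib]
    exact sum_congr rfl fun j _ => Nat.sub_add_cancel (number_le _ _)
  rw [number_sum, mem_choices hS, A.2.1 i] at h
  exact h

theorem col_newN {k : ℕ} (A : St d n) (σ : Equiv.Perm (Fin d))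
    (S : ∀ i : Fin d, Finset (Balls A i)) (_hS : S ∈ choices k A) (j : Fin d) :
    ∑ i, newN A σ S i j = n := by
  unfold newN
  rw [sum_add_distrib, Equiv.sum_comp σ⁻¹ (fun i => number (S i) j), ← sum_add_distrib]
  exact (sum_congr rfl fun i _ => Nat.sub_add_cancel (number_le _ _)).trans (A.2.2 j)

/-- the new state -/
def newS {k : ℕ} (A : St d n) (σ : Equiv.Perm (Fin d))
    (S : ∀ i : Fin d, Finset (Balls A i)) (hS : S ∈ choices k A) : St d n :=
  ⟨fun i j => ⟨newN A σ S i j, Nat.lt_succ_of_le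
    ((single_le_sum (f := fun j => newN A σ S i j) (fun _ _ => Nat.zero_le _)
      (mem_univ j)).trans_eq (row_newN A σ S hS i))⟩,
    fun i => row_newN A σ S hS i, fun j => col_newN A σ S hS j⟩

theorem cond_iff {k : ℕ} (A B : St d n) (σ : Equiv.Perm (Fin d))
    (S : ∀ i : Fin d, Finset (Balls A i)) (hS : S ∈ choices k A) :
    (∀ i j, (B.1 i j : ℕ) = (A.1 i j : ℕ) - number (S i) j + number (S (σ⁻¹ i)) j) ↔
      B = newS A σ S hS := by
  constructor
  · intro h
    apply Subtype.ext
    funext i j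
    apply Fin.ext
    exact h i j
  · rintro rfl i j
    rfl

theorem ring_row (μ : Equiv.Perm (Fin d) → ℝ) (k : ℕ) (hμ : ∑ σ, μ σ = 1) (hk : k ≤ n)
    (A : St d n) : ∑ B, ring μ k A B = 1 := by
  unfold ring
  rw [sum_comm, ← hμ]
  apply sum_congr rfl
  intro σ _
  have hc : ((choices k A).card : ℝ) ≠ 0 := by
    exact_mod_cast (card_pos.2 (choices_pos k hk A)).ne'
  rw [← sum_div, ← mul_sum, mul_div_assoc]
  have : ∑ B : St d n, ((#{S ∈ choices k A | ∀ i j,
      (B.1 i j : ℕ) = (A.1 i j : ℕ) - number (S i) j + number (S (σ⁻¹ i)) j} : ℕ) : ℝ) =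
      ((choices k A).card : ℝ) := by
    rw [← Nat.cast_sum]
    congr 1
    simp only [card_filter]
    rw [sum_comm, card_eq_sum_ones]
    apply sum_congr rfl
    intro S hS
    rw [← card_filter, card_eq_one]
    refine ⟨newS A σ S hS, ?_⟩
    ext B
    rw [mem_filter, mem_singleton, cond_iff A B σ S hS]
    simp
  rw [this, div_self hc, mul_one]

theorem ring_nonneg (μ : Equiv.Perm (Fin d) → ℝ) (k : ℕ) (hμ : ∀ σ, 0 ≤ μ σ)
    (A B : St d n) : 0 ≤ ring μ k A B := by
  unfold ring
  exact sum_nonneg fun σ _ => div_nonneg (mul_nonneg (hμ σ) (Nat.cast_nonneg _))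
    (Nat.cast_nonneg _)

instance : Nonempty (St d n) :=
  ⟨⟨fun i j => if i = j then Fin.last n else 0, fun i => by
      rw [sum_eq_single i] <;> simp +contextual [eq_comm], fun j => by
      rw [sum_eq_single j] <;> simp +contextual⟩⟩

theorem s_EXS : S_EXS := by
  intro d n k μ hμ hk
  obtain ⟨π, h1, h2, h3⟩ := stat (Matrix.of (ring (n := n) μ k))
    (fun A B => ring_nonneg μ k hμ.1 A B) (fun A => ring_row μ k hμ.2 hk A)
  exact ⟨π, h1, h2, h3⟩

end Pool.Agent.L7h56.UC
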