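import Pool.Agent.L7h38.UC.Stm2

/-!
# UC, part PTL: Poisson tails
-/

set_option autoImplicit false

namespace Pool.Agent.L7h56.UC

open Finset Filter Topology Pool.Agent.L7h38.UC

theorem tail1 (t s : ℝ) (N : ℕ) (ht : 0 ≤ t) (hs0 : 0 < s) (hs1 : s ≤ 1) :
    ∑ m ∈ range N, pois t m ≤ (s ^ N)⁻¹ * Real.exp (-(t * (1 - s))) := by
  have hN : 0 < s ^ N := pow_pos hs0 N
  have h1 : ∀ m ∈ range N, pois t m ≤
      (s ^ N)⁻¹ * Real.exp (-t) * ((s * t) ^ m / (m.factorial : ℝ)) := by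
    intro m hm
    have hm' : m ≤ N := (mem_range.1 hm).le
    have h2 : s ^ N ≤ s ^ m := pow_le_pow_of_le_one hs0.le hs1 hm'
    have h3 : 1 ≤ (s ^ N)⁻¹ * s ^ m := by
      rw [inv_mul_eq_div, one_le_div hN]; exact h2
    have h4 : 0 ≤ pois t m := by unfold pois; positivity
    calc pois t m = 1 * pois t m := (one_mul _).symm
      _ ≤ ((s ^ N)⁻¹ * s ^ m) * pois t m := mul_le_mul_of_nonneg_right h3 h4
      _ = _ := by unfold pois; rw [mul_pow]; ring
  refine (sum_le_sum h1).trans ?_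
  rw [← mul_sum]
  have h5 := Real.sum_le_exp_of_nonneg (mul_nonneg hs0.le ht) N
  calc _ ≤ (s ^ N)⁻¹ * Real.exp (-t) * Real.exp (s * t) :=
        mul_le_mul_of_nonneg_left h5 (by positivity)
    _ = _ := by
        rw [mul_assoc, ← Real.exp_add]
        congr 2
        ring

theorem hs_exp (y : ℝ) : HasSum (fun m : ℕ => y ^ m / (m.factorial : ℝ)) (Real.exp y) := by
  rw [Real.exp_eq_exp_ℝ]
  exact NormedSpace.expSeries_div_hasSum_exp y

theorem tail2 (t s : ℝ) (N : ℕ) (ht : 0 ≤ t) (hs : 1 ≤ s) :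
    1 - ∑ m ∈ range (N + 1), pois t m ≤ (s ^ N)⁻¹ * Real.exp (t * (s - 1)) := by
  have hN : 0 < s ^ N := pow_pos (by linarith) N
  have a1 := (hasSum_nat_add_iff' (N + 1)).mpr (hs_exp t)
  have a2 := ((hasSum_nat_add_iff' (N + 1)).mpr (hs_exp (s * t))).mul_left (s ^ N)⁻¹
  have h := hasSum_le (fun m => ?_) a1 a2
  · have h6 : 0 ≤ ∑ i ∈ range (N + 1), (s * t) ^ i / (i.factorial : ℝ) :=
      sum_nonneg fun i _ => by positivity
    have h7 : Real.exp t - ∑ i ∈ range (N + 1), t ^ i / (i.factorial : ℝ) ≤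
        (s ^ N)⁻¹ * Real.exp (s * t) := by
      refine h.trans (mul_le_mul_of_nonneg_left (by linarith) (by positivity))
    have h8 := mul_le_mul_of_nonneg_left h7 (Real.exp_pos (-t)).le
    have e1 : Real.exp (-t) * (Real.exp t - ∑ i ∈ range (N + 1), t ^ i / (i.factorial : ℝ)) =
        1 - ∑ m ∈ range (N + 1), pois t m := by
      rw [mul_sub, ← Real.exp_add, neg_add_cancel, Real.exp_zero, mul_sum]
      congr 1
      apply sum_congr rfl
      intro i _
      unfold pois; ring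
    have e2 : Real.exp (-t) * ((s ^ N)⁻¹ * Real.exp (s * t)) =
        (s ^ N)⁻¹ * Real.exp (t * (s - 1)) := by
      rw [mul_left_comm, ← Real.exp_add]
      congr 2
      ring
    rw [e1, e2] at h8
    exact h8
  · have h2 : s ^ N ≤ s ^ (m + (N + 1)) := pow_le_pow_right₀ hs (by omega)
    have h3 : 1 ≤ (s ^ N)⁻¹ * s ^ (m + (N + 1)) := by
      rw [inv_mul_eq_div, one_le_div hN]; exact h2
    have h4 : 0 ≤ t ^ (m + (N + 1)) / ((m + (N + 1)).factorial : ℝ) := by positivity
    calc t ^ (m + (N + 1)) / ((m + (N + 1)).factorial : ℝ) =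
        1 * (t ^ (m + (N + 1)) / ((m + (N + 1)).factorial : ℝ)) := (one_mul _).symm
      _ ≤ ((s ^ N)⁻¹ * s ^ (m + (N + 1))) *
          (t ^ (m + (N + 1)) / ((m + (N + 1)).factorial : ℝ)) :=
        mul_le_mul_of_nonneg_right h3 h4
      _ = _ := by rw [mul_pow]; ring

theorem exp_small (c η : ℝ) (hc : 0 < c) (hη : 0 < η) :
    ∃ X : ℝ, 0 < X ∧ ∀ x, X ≤ x → Real.exp (-(c * x)) ≤ η := by
  refine ⟨max 1 (-Real.log η / c), by positivity, fun x hx => ?_⟩
  have h1 : -Real.log η / c ≤ x := (le_max_right _ _).trans hx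
  rw [div_le_iff₀ hc] at h1
  calc Real.exp (-(c * x)) ≤ Real.exp (Real.log η) := Real.exp_le_exp.2 (by linarith)
    _ = η := Real.exp_log hη

theorem s_PTL : S_PTL := by
  intro ε η hε hη
  -- constants
  have hc1 : 0 < ε - Real.log (1 + ε) := by
    have := Real.log_lt_sub_one_of_pos (show (0 : ℝ) < 1 + ε by linarith) (by linarith)
    linarith
  obtain ⟨X1, hX1, h1⟩ := exp_small _ η hc1 hη
  have part1 : ∀ x : ℝ, X1 ≤ x → ∀ N : ℕ, (N : ℝ) ≤ x → ∀ t : ℝ, (1 + ε) * x ≤ t →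
      ∑ m ∈ range N, pois t m ≤ η := by
    intro x hx N hN t ht
    have hx0 : 0 < x := lt_of_lt_of_le hX1 hx
    have ht0 : 0 ≤ t := le_trans (by positivity) ht
    have h := tail1 t (1 / (1 + ε)) N ht0 (by positivity)
      (by rw [div_le_one (by positivity)]; linarith)
    refine h.trans (le_trans ?_ (h1 x hx))
    have e1 : (((1 : ℝ) / (1 + ε)) ^ N)⁻¹ = Real.exp (N * Real.log (1 + ε)) := by
      rw [← Real.log_pow, Real.exp_log (by positivity)]
      simp
    rw [e1, ← Real.exp_add]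
    apply Real.exp_le_exp.2
    have l1 : 0 ≤ Real.log (1 + ε) := Real.log_nonneg (by linarith)
    have l2 : (N : ℝ) * Real.log (1 + ε) ≤ x * Real.log (1 + ε) :=
      mul_le_mul_of_nonneg_right hN l1
    have l3 : ε * x ≤ t * (1 - 1 / (1 + ε)) := by
      have : (1 : ℝ) - 1 / (1 + ε) = ε / (1 + ε) := by field_simp; ring
      rw [this]
      have l4 : (1 + ε) * x * (ε / (1 + ε)) ≤ t * (ε / (1 + ε)) :=
        mul_le_mul_of_nonneg_right ht (by positivity)
      have l5 : (1 + ε) * x * (ε / (1 + ε)) = ε * x := by field_simp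
      linarith
    linarith
  rcases lt_or_ge ε 1 with hε1 | hε1
  · have hc2 : 0 < -(ε + Real.log (1 - ε)) := by
      have := Real.log_lt_sub_one_of_pos (show (0 : ℝ) < 1 - ε by linarith) (by linarith)
      linarith
    obtain ⟨X2, hX2, h2⟩ := exp_small _ η hc2 hη
    refine ⟨max X1 X2, by positivity, fun x hx N => ⟨fun hN t ht =>
      part1 x ((le_max_left _ _).trans hx) N hN t ht, fun hN t ht0 ht => ?_⟩⟩
    have hx2 : X2 ≤ x := (le_max_right _ _).trans hx
    have hx0 : 0 < x := lt_of_lt_of_le hX2 hx2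
    have he : 0 < 1 - ε := by linarith
    have h := tail2 t (1 / (1 - ε)) N ht0 (by rw [le_div_iff₀ he]; linarith)
    refine h.trans (le_trans ?_ (h2 x hx2))
    have e1 : (((1 : ℝ) / (1 - ε)) ^ N)⁻¹ = Real.exp (N * Real.log (1 - ε)) := by
      rw [← Real.log_pow, Real.exp_log (by positivity)]
      simp
    rw [e1, ← Real.exp_add]
    apply Real.exp_le_exp.2
    have l1 : Real.log (1 - ε) ≤ 0 := Real.log_nonpos he.le (by linarith)
    have l2 : (N : ℝ) * Real.log (1 - ε) ≤ x * Real.log (1 - ε) :=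
      mul_le_mul_of_nonpos_right hN l1
    have l3 : t * (1 / (1 - ε) - 1) ≤ ε * x := by
      have : (1 : ℝ) / (1 - ε) - 1 = ε / (1 - ε) := by field_simp; ring
      rw [this]
      have l4 : t * (ε / (1 - ε)) ≤ (1 - ε) * x * (ε / (1 - ε)) :=
        mul_le_mul_of_nonneg_right ht (by positivity)
      have l5 : (1 - ε) * x * (ε / (1 - ε)) = ε * x := by field_simp
      linarith
    linarith
  · refine ⟨X1, hX1, fun x hx N => ⟨fun hN t ht => part1 x hx N hN t ht,
      fun hN t ht0 ht => ?_⟩⟩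
    have hx0 : 0 < x := lt_of_lt_of_le hX1 hx
    have ht1 : t = 0 := by
      have : (1 - ε) * x ≤ 0 := mul_nonpos_of_nonpos_of_nonneg (by linarith) hx0.le
      linarith
    subst ht1
    have e : ∑ m ∈ range (N + 1), pois 0 m = 1 := by
      rw [sum_range_succ']
      simp [pois]
    rw [e]; linarith

end Pool.Agent.L7h56.UC
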